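import Pool.Agent.Results.MP_5382b1_gt.BorelRigidFamily

/-!
# A `σ`-homogeneous space which is not `σ`-homogeneous with closed witnesses

The space `X` is a subspace of the Cantor set which is the union of two disjoint homogeneous
subspaces, which meets every uncountable Borel set, and such that the inclusion is the only
continuous injection of an open subspace of `X` into `X`. If `X` is covered by countably many
closed subsets, one of them has nonempty interior in `X`, so it is not homogeneous.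
-/

set_option autoImplicit false

open Set Topology

namespace Pool.Agent.Results.MP_27e890_gt.NoClosedWitnesses

/-- A space `Y` is homogeneous if every point can be moved to every other point by a homeomorphism
of `Y` onto itself. -/
def Homogeneous (Y : Type) [TopologicalSpace Y] : Prop :=
  ∀ x y : Y, ∃ h : Y ≃ₜ Y, h x = y

/-- `X` is `σ`-homogeneous. -/
def SigmaHomogeneous (X : Type) [TopologicalSpace X] : Prop :=
  ∃ A : ℕ → Set X, (⋃ n, A n) = Set.univ ∧ ∀ n, Homogeneous (A n)

/-- `X` is `σ`-homogeneous with closed witnesses. -/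
def SigmaHomogeneousClosed (X : Type) [TopologicalSpace X] : Prop :=
  ∃ A : ℕ → Set X, (⋃ n, A n) = Set.univ ∧ ∀ n, Homogeneous (A n) ∧ IsClosed (A n)

theorem exists_cylinder {O : Set (ℕ → Bool)} (hO : IsOpen O) {x : ℕ → Bool} (hx : x ∈ O) :
    ∃ k : ℕ, ∀ y : ℕ → Bool, (∀ i < k, y i = x i) → y ∈ O := by
  obtain ⟨F, V, hV, hsub⟩ := isOpen_pi_iff.1 hO x hx
  obtain ⟨b, hb⟩ := F.finite_toSet.bddAbove
  refine ⟨b + 1, fun y hy => hsub fun i hi => ?_⟩
  rw [hy i (Nat.lt_succ_of_le (hb hi))]
  exact (hV i hi).2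

theorem not_countable {O : Set (ℕ → Bool)} (hO : IsOpen O) (hne : O.Nonempty) :
    ¬ O.Countable := by
  obtain ⟨x, hx⟩ := hne
  obtain ⟨k, hk⟩ := exists_cylinder hO hx
  intro hc
  let g : (ℕ → Bool) → (ℕ → Bool) := fun z i => if i < k then x i else z (i - k)
  have hg : Function.Injective g := by
    intro z w hzw
    funext i
    have h := congrFun hzw (i + k)
    simpa [g] using h
  have hgO : ∀ z, g z ∈ O := fun z => hk _ fun i hi => by simp [g, hi]
  have h1 : (univ : Set (ℕ → Bool)).Countable :=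
    Set.MapsTo.countable_of_injOn (f := g) (fun z _ => hgO z) hg.injOn hc
  have h3 : Cardinal.mk (ℕ → Bool) = Cardinal.continuum := Pool.Agent.H3R3.Rigid.mk_C
  have h2 : Countable (ℕ → Bool) := countable_univ_iff.1 h1
  have h4 := Cardinal.mk_le_aleph0_iff.2 h2
  rw [h3] at h4
  exact Cardinal.aleph0_lt_continuum.not_ge h4

/-- There is a subspace `X` of the Cantor set which is the union of two disjoint homogeneous
subspaces (so it is `σ`-homogeneous), but which is not the union of countably many closed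
homogeneous subspaces. -/
theorem result : ∃ X : Set (ℕ → Bool), X.Nonempty ∧
    (∃ A B : Set (ℕ → Bool), X = A ∪ B ∧ Disjoint A B ∧ Homogeneous A ∧ Homogeneous B) ∧
      SigmaHomogeneous X ∧ ¬ SigmaHomogeneousClosed X := by
  obtain ⟨A, B, X, h1, h2, h3, -, h5, -⟩ := MP_5382b1_gt.BorelRigidFamily.result
  have hmeet : ∀ D : Set (ℕ → Bool), MeasurableSet D → ¬ D.Countable →
      Cardinal.continuum ≤ Cardinal.mk (D ∩ X ∅ : Set (ℕ → Bool)) := by
    intro D hD hDc
    refine (h3 ∅ D hD hDc).1.trans (Cardinal.mk_le_mk_of_subset ?_)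
    rw [(h1 ∅).1]
    exact inter_subset_inter_right _ subset_union_left
  have htwo : ∀ O : Set (ℕ → Bool), IsOpen O → O.Nonempty →
      ∃ a ∈ O ∩ X ∅, ∃ b ∈ O ∩ X ∅, a ≠ b := by
    intro O hO hne
    have h := hmeet O hO.measurableSet (not_countable hO hne)
    have h' : 1 < Cardinal.mk (O ∩ X ∅ : Set (ℕ → Bool)) :=
      (Cardinal.one_lt_aleph0.trans Cardinal.aleph0_lt_continuum).trans_le h
    obtain ⟨a, b, hab⟩ := (Cardinal.one_lt_iff_nontrivial.1 h').exists_pair_ne
    exact ⟨a, a.2, b, b.2, fun h => hab (Subtype.ext h)⟩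
  refine ⟨X ∅, ?_, ⟨A ∅, B ∅, h1 ∅⟩, (h2 ∅).1, ?_⟩
  · obtain ⟨a, ha, -⟩ := htwo univ isOpen_univ univ_nonempty
    exact ⟨a, ha.2⟩
  rintro ⟨F, hFu, hF⟩
  have hK : ∀ n, ∃ K : Set (ℕ → Bool), IsClosed K ∧ Subtype.val ⁻¹' K = F n := fun n =>
    isClosed_induced_iff.1 (hF n).2
  choose K hKc hKF using hK
  -- all but countably many points are in the sets `K n`
  have hD : ((⋃ n, K n)ᶜ).Countable := by
    by_contra hc
    have h := hmeet _ (MeasurableSet.iUnion fun n => (hKc n).measurableSet).compl hc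
    have he : ((⋃ n, K n)ᶜ ∩ X ∅ : Set (ℕ → Bool)) = ∅ := by
      refine eq_empty_iff_forall_notMem.2 ?_
      rintro x ⟨hx, hxX⟩
      have h4 : (⟨x, hxX⟩ : X ∅) ∈ ⋃ n, F n := by rw [hFu]; trivial
      obtain ⟨n, hn⟩ := mem_iUnion.1 h4
      rw [← hKF n] at hn
      exact hx (mem_iUnion.2 ⟨n, hn⟩)
    rw [he, Cardinal.mk_eq_zero] at h
    exact absurd h (not_le.2 (Cardinal.aleph0_pos.trans Cardinal.aleph0_lt_continuum))
  have : Countable ((⋃ n, K n)ᶜ : Set (ℕ → Bool)) := hD.to_subtype
  obtain ⟨i, hi⟩ := nonempty_interior_of_iUnion_of_closed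
    (f := fun i : ℕ ⊕ ((⋃ n, K n)ᶜ : Set (ℕ → Bool)) => Sum.elim K (fun d => {d.1}) i)
    (by
      rintro (n | d)
      · exact hKc n
      · exact isClosed_singleton)
    (by
      refine eq_univ_of_forall fun x => ?_
      by_cases hx : x ∈ ⋃ n, K n
      · obtain ⟨n, hn⟩ := mem_iUnion.1 hx
        exact mem_iUnion.2 ⟨Sum.inl n, hn⟩
      · exact mem_iUnion.2 ⟨Sum.inr ⟨x, hx⟩, rfl⟩)
  rcases i with n | d
  · -- the set `F n` contains a nonempty open subspace
    obtain ⟨a, ha, b, hb, hab⟩ := htwo (interior (K n)) isOpen_interior hi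
    have hUF : ∀ u : X ∅, u ∈ (Subtype.val ⁻¹' interior (K n) : Set (X ∅)) → u ∈ F n := by
      intro u hu
      rw [← hKF n]
      exact interior_subset (s := K n) hu
    obtain ⟨h, hh⟩ := (hF n).1 ⟨⟨a, ha.2⟩, hUF _ ha.1⟩ ⟨⟨b, hb.2⟩, hUF _ hb.1⟩
    let U : Set (X ∅) := Subtype.val ⁻¹' interior (K n)
    let f : U → X ∅ := fun u => (h ⟨u.1, hUF u.1 u.2⟩).1
    have hf : Continuous f := by
      refine continuous_subtype_val.comp (h.continuous.comp ?_)
      exact Continuous.subtype_mk continuous_subtype_val _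
    have hfi : Function.Injective f := by
      intro u v huv
      have h6 := h.injective (Subtype.ext huv)
      have h6' : u.1 = v.1 := congrArg (fun w : F n => w.1) h6
      exact Subtype.ext h6'
    have h7 := h5 ∅ U f (isOpen_interior.preimage continuous_subtype_val) hf hfi
      ⟨⟨a, ha.2⟩, ha.1⟩
    have h8 : (h ⟨⟨a, ha.2⟩, hUF _ ha.1⟩).1 = (⟨a, ha.2⟩ : X ∅) := h7
    rw [hh] at h8
    exact hab (congrArg Subtype.val h8).symm
  · refine not_countable isOpen_interior hi ((countable_singleton d.1).mono interior_subset)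

end Pool.Agent.Results.MP_27e890_gt.NoClosedWitnesses
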